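import Pool.Agent.Work.MP_b4cb8e_al.Tr.Span

set_option autoImplicit false

open Pool.Agent.Work.MP_b4cb8e_al

namespace Pool.Agent.Results.MP_b4cb8e_al.Commutators

/-- The problem holds when any two elements of `N` lie in a division subring `G` with an element
`z` that is not a sum of additive commutators of `G`, where `z = 1` or `G` is not inside `K`.
For `G = D` this is the problem for every division ring `D` different from `[D, D]`. -/
theorem result (D : Type) [DivisionRing D]
    (K : Subfield D) (hK : K ≠ ⊤) (N : Subgroup Dˣ) (hN : N.IsSubnormal)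
    (hrad : ∀ x ∈ N, ∃ m : ℕ, 1 ≤ m ∧ (x : D) ^ m ∈ K)
    (h : ∀ a ∈ N, ∀ b ∈ N, ∃ G : Subfield D, (a : D) ∈ G ∧ (b : D) ∈ G ∧ ∃ z ∈ G,
      (z = 1 ∨ ¬ G ≤ K) ∧
      z ∉ AddSubgroup.closure {w : D | ∃ x ∈ G, ∃ y ∈ G, w = x * y - y * x}) :
    ∀ x ∈ N, (x : D) ∈ Subring.center D :=
  forall_SN.1 (central_of_trace hK hN (forall_SN.2 hrad)
    (forall_SN.2 fun a ha => forall_SN.2 fun b hb => h a ha b hb))

end Pool.Agent.Results.MP_b4cb8e_al.Commutators
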