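import Pool.Agent.Work.MP_b4cb8e_al.Crit

set_option autoImplicit false

open Pool.Agent.Work.MP_b4cb8e_al

namespace Pool.Agent.Results.MP_b4cb8e_al.InvariantSubring

/-- The problem for division rings with a proper noncentral subring invariant under all inner
automorphisms. -/
theorem result (D : Type) [DivisionRing D]
    (B : Subring D) (hB : B ≠ ⊤) (hnc : ∃ b ∈ B, b ∉ Subring.center D)
    (hinv : ∀ x : D, x ≠ 0 → ∀ b ∈ B, x * b * x⁻¹ ∈ B)
    (K : Subfield D) (hK : K ≠ ⊤) (N : Subgroup Dˣ) (hN : N.IsSubnormal)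
    (hrad : ∀ x ∈ N, ∃ m : ℕ, 1 ≤ m ∧ (x : D) ^ m ∈ K) :
    ∀ x ∈ N, (x : D) ∈ Subring.center D := by
  obtain ⟨b, hb, hb'⟩ := hnc
  exact forall_SN.1 (QQ_of_invariant hinv hB hb hb' K hK N hN (forall_SN.2 hrad))

end Pool.Agent.Results.MP_b4cb8e_al.InvariantSubring
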