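import Pool.Agent.Work.MP_b4cb8e_al.Tr.Norm

set_option autoImplicit false

open Pool.Agent.Work.MP_b4cb8e_al

namespace Pool.Agent.Results.MP_b4cb8e_al.Normed

/-- The problem holds when any two noncommuting elements of `N` lie in a division subring `G`
with a real submultiplicative norm `p` and a nonzero `z` of norm less than one, where `z` is
central in `D` or `G` is not inside `K`.  For `G = D` this is the problem for every nondiscrete
normed division ring. -/
theorem result (D : Type) [DivisionRing D]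
    (K : Subfield D) (hK : K ≠ ⊤) (N : Subgroup Dˣ) (hN : N.IsSubnormal)
    (hrad : ∀ x ∈ N, ∃ m : ℕ, 1 ≤ m ∧ (x : D) ^ m ∈ K)
    (h : ∀ a ∈ N, ∀ b ∈ N, a * b ≠ b * a → ∃ G : Subfield D, (a : D) ∈ G ∧ (b : D) ∈ G ∧
      ∃ (p : RingNorm G) (z : G), z ≠ 0 ∧ p z < 1 ∧
        ((z : D) ∈ Subring.center D ∨ ¬ G ≤ K)) :
    ∀ x ∈ N, (x : D) ∈ Subring.center D :=
  forall_SN.1 (central_of_norm hK hN (forall_SN.2 hrad)
    (forall_SN.2 fun a ha => forall_SN.2 fun b hb e => h a ha b hb fun e' =>
      e (by exact_mod_cast e')))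

end Pool.Agent.Results.MP_b4cb8e_al.Normed
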