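import Pool.Agent.Work.MP_b4cb8e_al.Mal

set_option autoImplicit false

open Pool.Agent.Work.MP_b4cb8e_al

namespace Pool.Agent.Results.MP_b4cb8e_al.TwoGenerated

/-- The problem holds unless `N` contains `a`, `b` that lie in no centrally finite division
subring, such that the ring generated by `a`, `b` contains an infinite field and every nonzero `t`
in the centre of the division ring generated by `Z(D)`, `a`, `b` is invertible in the ring
generated by `t`, `t a`, `t b`. -/
theorem result (D : Type) [DivisionRing D]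
    (K : Subfield D) (hK : K ≠ ⊤) (N : Subgroup Dˣ) (hN : N.IsSubnormal)
    (hrad : ∀ x ∈ N, ∃ m : ℕ, 1 ≤ m ∧ (x : D) ^ m ∈ K)
    (h : ∀ a ∈ N, ∀ b ∈ N,
      (∃ E : Subfield D, (a : D) ∈ E ∧ (b : D) ∈ E ∧ Module.Finite (Subring.center E) E) ∨
      (∀ L : Subfield D, (∀ x ∈ L, ∀ y ∈ L, x * y = y * x) →
        (L : Set D) ⊆ Subring.closure {(a : D), (b : D)} → (L : Set D).Finite) ∨
      ∃ t ∈ Subfield.closure ((Subring.center D : Set D) ∪ {(a : D), (b : D)}), t ≠ 0 ∧
        t * a = a * t ∧ t * b = b * t ∧ t⁻¹ ∉ Subring.closure {t, t * (a : D), t * (b : D)}) :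
    ∀ x ∈ N, (x : D) ∈ Subring.center D :=
  forall_SN.1 (central_of_pairs hK hN (forall_SN.2 hrad)
    (forall_SN.2 fun a ha => forall_SN.2 fun b hb => (h a ha b hb).elim
      (fun ⟨_, h1, h2, h3⟩ => Or.inl fun L _ => mal_finite h1 h2 h3 L) id))

end Pool.Agent.Results.MP_b4cb8e_al.TwoGenerated
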